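import Mathlib
import Pool.Agent.H15.G.R_seed8.H248R6.Coef

set_option autoImplicit false

/-!
# Moving one of the points
-/

namespace Pool.Agent.H248R6

open MvPolynomial Pool.Agent.H248R5

variable {L : Type*} [Field L] [CharZero L]

theorem move {n : ℕ} {w : Fin n → ℕ} {P : Fin n → Fin 2 → L} {d : ℕ} {k : Fin n} {m : ℕ}
    (hk : w k = m + 1) {a : Fin 2} (D : Derivation ℚ L L)
    (hD : ∀ i b, D (P i b) = if i = k ∧ b = a then 1 else 0) {G : MvPolynomial (Fin 3) L}
    (hG : G ∈ forms w P d) :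
    dG D G ∈ forms (Function.update w k m) P d ∧
      homogeneousComponent m (tau (P k) (dG D G)) =
        - pderiv a (homogeneousComponent (m + 1) (tau (P k) G)) := by
  classical
  obtain ⟨h1, h2⟩ := mem_forms.1 hG
  have hk2 := (mem_pow_idealOfVars_iff' _ _).1 (h2 k)
  rw [hk] at hk2
  have ht : tau (P k) (dG D G) = dG D (tau (P k) G) - pderiv a (tau (P k) G) := by
    rw [tau_dG]
    congr 1
    rw [Finset.sum_eq_single a]
    · rw [hD, if_pos ⟨rfl, rfl⟩, C_1, one_mul]
    · intro b _ hb
      rw [hD, if_neg (fun h => hb h.2), C_0, zero_mul]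
    · intro h
      exact absurd (Finset.mem_univ a) h
  refine ⟨mem_forms.2 ⟨dG_homog D h1, fun i => ?_⟩, ?_⟩
  · rw [mem_pow_idealOfVars_iff']
    intro s hs
    by_cases hi : i = k
    · subst hi
      rw [Function.update_self] at hs
      rw [ht, coeff_sub, coeff_dG, coeff_pderiv, hk2 s (by omega), map_zero,
        hk2 (s + Finsupp.single a 1) (by rw [map_add, Finsupp.degree_single]; omega)]
      ring
    · rw [Function.update_of_ne hi] at hs
      have ht2 : tau (P i) (dG D G) = dG D (tau (P i) G) := by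
        rw [tau_dG]
        rw [Finset.sum_eq_zero, sub_zero]
        intro b _
        rw [hD, if_neg (fun h => hi h.1), C_0, zero_mul]
      rw [ht2, coeff_dG, (mem_pow_idealOfVars_iff' _ _).1 (h2 i) s hs, map_zero]
  · rw [ht, map_sub, hc_dG, hc_pderiv]
    have h3 : homogeneousComponent m (tau (P k) G) = 0 := by
      ext s
      rw [coeff_homogeneousComponent, coeff_zero]
      split_ifs with hs
      · exact hk2 s (by omega)
      · rfl
    rw [h3, dG_zero, zero_sub]

theorem back {n : ℕ} {w : Fin n → ℕ} {P : Fin n → Fin 2 → L} {d : ℕ} {k : Fin n} {m : ℕ}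
    (hk : w k = m + 1) {H : MvPolynomial (Fin 3) L}
    (hH : H ∈ forms (Function.update w k m) P d)
    (h0 : homogeneousComponent m (tau (P k) H) = 0) : H ∈ forms w P d := by
  classical
  obtain ⟨h1, h2⟩ := mem_forms.1 hH
  refine mem_forms.2 ⟨h1, fun i => ?_⟩
  have h3 := h2 i
  by_cases hi : i = k
  · subst hi
    rw [Function.update_self, mem_pow_idealOfVars_iff'] at h3
    rw [hk, mem_pow_idealOfVars_iff']
    intro s hs
    rcases Nat.lt_or_ge s.degree m with h4 | h4
    · exact h3 s h4
    · have h5 := congrArg (coeff s) h0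
      rw [coeff_homogeneousComponent, if_pos (by omega), coeff_zero] at h5
      exact h5
  · rwa [Function.update_of_ne hi] at h3

theorem lift {n : ℕ} {w : Fin n → ℕ} {P : Fin n → Fin 2 → L} {d : ℕ} {k : Fin n} {m : ℕ}
    (hk : w k = m) (hS : Function.Surjective (ev (Function.update w k (m + 1)) P d))
    {h : MvPolynomial (Fin 2) L} (hh : h.IsHomogeneous m) :
    ∃ G ∈ forms w P d, homogeneousComponent m (tau (P k) G) = h := by
  classical
  set w' := Function.update w k (m + 1) with hw'
  have hw'k : w' k = m + 1 := by rw [hw', Function.update_self]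
  obtain ⟨⟨G, hG⟩, hGy⟩ := hS (Function.update (0 : ∀ i, Quo L (w' i)) k
    (Ideal.Quotient.mk ((idealOfVars (Fin 2) L) ^ (w' k)) h))
  have h1 : tau (P k) G - h ∈ (idealOfVars (Fin 2) L) ^ (m + 1) := by
    have h2 := congrFun hGy k
    rw [ev_apply, Function.update_self] at h2
    have h3 := Ideal.Quotient.eq.1 h2
    rwa [hw'k] at h3
  have hhm : h ∈ (idealOfVars (Fin 2) L) ^ m := by
    rw [mem_pow_idealOfVars_iff]
    intro x hx
    have := hh (mem_support_iff.1 hx)
    rw [Finsupp.degree_eq_weight_one]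
    exact this.ge
  refine ⟨G, mem_forms.2 ⟨hG, fun i => ?_⟩, ?_⟩
  · by_cases hi : i = k
    · subst hi
      rw [hk]
      have h4 := Ideal.add_mem _ hhm (Ideal.pow_le_pow_right (Nat.le_succ m) h1)
      rwa [add_sub_cancel] at h4
    · have h2 := congrFun hGy i
      rw [ev_apply, Function.update_of_ne hi] at h2
      have h3 := Ideal.Quotient.eq_zero_iff_mem.1 h2
      rwa [hw', Function.update_of_ne hi] at h3
  · have h5 : tau (P k) G = h + (tau (P k) G - h) := by ring
    rw [h5, map_add, homogeneousComponent_of_mem hh, if_pos rfl]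
    have h6 : homogeneousComponent m (tau (P k) G - h) = 0 := by
      ext s
      rw [coeff_homogeneousComponent, coeff_zero]
      split_ifs with hs
      · exact (mem_pow_idealOfVars_iff' _ _).1 h1 s (by omega)
      · rfl
    rw [h6, add_zero]

theorem mono_homog (i j : ℕ) : (X 0 ^ i * X 1 ^ j : MvPolynomial (Fin 2) L).IsHomogeneous (i + j) := by
  have h := ((isHomogeneous_X L (0 : Fin 2)).pow i).mul ((isHomogeneous_X L (1 : Fin 2)).pow j)
  rwa [one_mul, one_mul] at h

theorem pd0 (i j : ℕ) : pderiv 0 (X 0 ^ (i + 1) * X 1 ^ j : MvPolynomial (Fin 2) L) =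
    C ((i : L) + 1) * (X 0 ^ i * X 1 ^ j) := by
  rw [pderiv_mul, pderiv_pow, pderiv_pow, pderiv_X_self, pderiv_X_of_ne (by decide)]
  simp
  ring

theorem pd1 (i j : ℕ) : pderiv 1 (X 0 ^ i * X 1 ^ (j + 1) : MvPolynomial (Fin 2) L) =
    C ((j : L) + 1) * (X 0 ^ i * X 1 ^ j) := by
  rw [pderiv_mul, pderiv_pow, pderiv_pow, pderiv_X_self, pderiv_X_of_ne (by decide)]
  simp
  ring

theorem pd00 (j : ℕ) : pderiv 0 (X 0 ^ 0 * X 1 ^ j : MvPolynomial (Fin 2) L) = 0 := by
  rw [pow_zero, one_mul, pderiv_pow, pderiv_X_of_ne (by decide), mul_zero]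

end Pool.Agent.H248R6
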