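import Mathlib
import Pool.Agent.H15.G.R_seed8.H248R5.Gen
import Pool.Agent.H15.G.R_seed8.H248R6.Der
import Pool.Agent.H15.G.R_seed8.H248R6.Values
import Pool.Agent.H15.G.R_seed8.H248R6.Rank
import Pool.Agent.H15.G.R_seed8.H248R6.Elim

set_option autoImplicit false

/-!
# Smoothness of the general member by moving the points
-/

namespace Pool.Agent.H248R6

open MvPolynomial Pool.Agent.H248R5

theorem tau_map {K L : Type*} [Field K] [Field L] [Algebra K L] (p : Fin 2 → K)
    (G : MvPolynomial (Fin 3) K) :
    tau (fun a => algebraMap K L (p a)) (MvPolynomial.map (algebraMap K L) G) =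
      MvPolynomial.map (algebraMap K L) (tau p G) := by
  induction G using MvPolynomial.induction_on with
  | C c => rw [map_C, tau_C, tau_C, map_C]
  | add G H hG hH => simp only [map_add, hG, hH]
  | mul_X G i hG =>
    rw [map_mul, map_mul, map_mul, map_mul, hG, map_X]
    congr 1
    fin_cases i
    · change tau (fun a => algebraMap K L (p a)) (X 0) = MvPolynomial.map (algebraMap K L)
        (tau p (X 0))
      rw [tau_X0, tau_X0, map_add, map_X, map_C]
    · change tau (fun a => algebraMap K L (p a)) (X 1) = MvPolynomial.map (algebraMap K L)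
        (tau p (X 1))
      rw [tau_X1, tau_X1, map_add, map_X, map_C]
    · change tau (fun a => algebraMap K L (p a)) (X 2) = MvPolynomial.map (algebraMap K L)
        (tau p (X 2))
      rw [tau_X2, tau_X2, map_one]

theorem map_mem_forms {K L : Type*} [Field K] [Field L] [Algebra K L] {n : ℕ} {w : Fin n → ℕ}
    {P : Fin n → Fin 2 → K} {d : ℕ} {G : MvPolynomial (Fin 3) K} (hG : G ∈ forms w P d) :
    MvPolynomial.map (algebraMap K L) G ∈ forms w (fun i a => algebraMap K L (P i a)) d := by
  obtain ⟨h1, h2⟩ := mem_forms.1 hG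
  refine mem_forms.2 ⟨h1.map _, fun i => ?_⟩
  rw [tau_map, mem_pow_idealOfVars_iff']
  intro s hs
  rw [coeff_map, (mem_pow_idealOfVars_iff' _ _).1 (h2 i) s hs, map_zero]

theorem forms_finite {L : Type*} [Field L] {n : ℕ} (w : Fin n → ℕ) (P : Fin n → Fin 2 → L)
    (d : ℕ) : Module.Finite L ↥(forms w P d) := by
  have h : Module.Finite L ↥(homogeneousSubmodule (Fin 3) L d) :=
    Module.Finite.iff_fg.2 (homogeneousSubmodule_fg _ _ d)
  exact Submodule.finiteDimensional_of_le (S₁ := forms w P d)
    (S₂ := homogeneousSubmodule (Fin 3) L d) inf_le_left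

theorem span_forms {K L : Type*} [Field K] [Field L] [Algebra K L] {n : ℕ} {w : Fin n → ℕ}
    {P : Fin n → Fin 2 → K} {d N : ℕ} (b : Module.Basis (Fin N) K ↥(forms w P d))
    (hdim : Module.finrank L ↥(forms w (fun i a => algebraMap K L (P i a)) d) = N)
    {G : MvPolynomial (Fin 3) L} (hG : G ∈ forms w (fun i a => algebraMap K L (P i a)) d) :
    ∃ c : Fin N → L, G = ∑ j, c j • MvPolynomial.map (algebraMap K L)
      (b j : MvPolynomial (Fin 3) K) := by
  have hfin := forms_finite w (fun i a => algebraMap K L (P i a)) d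
  have hli0 : LinearIndependent K (fun j => (b j : MvPolynomial (Fin 3) K)) :=
    b.linearIndependent.map' (Submodule.subtype _) (Submodule.ker_subtype _)
  have hli := li_map (L := L) _ hli0
  let v : Fin N → ↥(forms w (fun i a => algebraMap K L (P i a)) d) := fun j =>
    ⟨MvPolynomial.map (algebraMap K L) (b j : MvPolynomial (Fin 3) K), map_mem_forms (b j).2⟩
  have hv : LinearIndependent L v := LinearIndependent.of_comp (Submodule.subtype _) hli
  have htop := hv.span_eq_top_of_card_eq_finrank' (by rw [Fintype.card_fin, hdim])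
  have hmem : (⟨G, hG⟩ : ↥(forms w (fun i a => algebraMap K L (P i a)) d)) ∈
      Submodule.span L (Set.range v) := by
    rw [htop]
    exact Submodule.mem_top
  obtain ⟨c, hc⟩ := (Submodule.mem_span_range_iff_exists_fun L).1 hmem
  refine ⟨c, ?_⟩
  have h2 := congrArg (Submodule.subtype _) hc
  rw [map_sum] at h2
  simp only [map_smul, Submodule.subtype_apply] at h2
  exact h2.symm

/-- The argument at a singular point of the generic member, over a field extension. -/
theorem at_point {K L : Type} [Field K] [CharZero K] [Field L] [Algebra K L] {n : ℕ}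
    {w : Fin n → ℕ} {P : Fin n → Fin 2 → K} {e N : ℕ}
    (hP : AlgebraicIndependent ℚ (fun ij : Fin n × Fin 2 => P ij.1 ij.2))
    (b : Module.Basis (Fin N) K ↥(forms w P (e + 1)))
    (hdim : Module.finrank L ↥(forms w (fun i a => algebraMap K L (P i a)) (e + 1)) = N)
    (hsurj : Function.Surjective (ev w (fun i a => algebraMap K L (P i a)) (e + 1)))
    (hup : ∀ k, Function.Surjective
      (ev (Function.update w k (w k + 1)) (fun i a => algebraMap K L (P i a)) (e + 1)))
    (hlow : Function.Surjective
      (ev (fun i => w i - 1) (fun i a => algebraMap K L (P i a)) e))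
    (t : Fin N → L) (D : Fin N → Derivation K L L)
    (hD : ∀ i j, D i (t j) = if i = j then 1 else 0) (q : Fin 3 → L) (hq : q ≠ 0)
    (hqP : ∀ i, ¬ ∃ c : L, q = c • (![algebraMap K L (P i 0), algebraMap K L (P i 1), 1] :
      Fin 3 → L))
    (h1 : ∑ i, t i * aeval q (b i : MvPolynomial (Fin 3) K) = 0)
    (h2 : ∀ a, ∑ i, t i * aeval q (pderiv a (b i : MvPolynomial (Fin 3) K)) = 0) : False := by
  classical
  have hchar : CharZero L := charZero_of_injective_algebraMap (algebraMap K L).injective
  set PL : Fin n → Fin 2 → L := fun i a => algebraMap K L (P i a) with hPL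
  have hPLi : AlgebraicIndependent ℚ (fun ij : Fin n × Fin 2 => PL ij.1 ij.2) :=
    hP.map' (f := (algebraMap K L).toRatAlgHom) (algebraMap K L).injective
  have hbq : ∀ j, aeval q (b j : MvPolynomial (Fin 3) K) = 0 :=
    fun j => core (fun i => (b i : MvPolynomial (Fin 3) K)) t D hD q h1 h2 j
  obtain ⟨η, hη⟩ := rank_one (fun i => (b i : MvPolynomial (Fin 3) K))
    (fun i => (mem_forms.1 (b i).2).1) t D hD q hq h2 hbq
  choose θ hθ using hη
  have ev0 : ∀ p : MvPolynomial (Fin 3) K, eval q (MvPolynomial.map (algebraMap K L) p) =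
      aeval q p := fun p => by rw [eval_map, aeval_def]
  have f0 : ∀ G ∈ forms w PL (e + 1), eval q G = 0 := by
    intro G hG
    obtain ⟨c, rfl⟩ := span_forms b hdim hG
    rw [map_sum]
    refine Finset.sum_eq_zero fun j _ => ?_
    rw [smul_eval, ev0, hbq, mul_zero]
  have f1 : ∀ G ∈ forms w PL (e + 1), ∃ ϑ : L, ∀ a, eval q (pderiv a G) = ϑ * η a := by
    intro G hG
    obtain ⟨c, rfl⟩ := span_forms b hdim hG
    refine ⟨∑ j, c j * θ j, fun a => ?_⟩
    rw [map_sum, map_sum, Finset.sum_mul]
    refine Finset.sum_congr rfl fun j _ => ?_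
    rw [Derivation.map_smul, smul_eval, pderiv_map, ev0, hθ]
    ring
  have f2 : ∀ k ∈ Finset.univ.filter (fun k => 0 < w k),
      ∀ H ∈ forms (Function.update w k (w k - 1)) PL (e + 1), eval q H = 0 := by
    intro k hk
    have hk0 : 0 < w k := (Finset.mem_filter.1 hk).2
    obtain ⟨m, hm⟩ : ∃ m, w k = m + 1 := ⟨w k - 1, by omega⟩
    choose Dk hDk using fun a : Fin 2 => exists_der _ hPLi (k, a)
    have hDk' : ∀ a i c, Dk a (PL i c) = if i = k ∧ c = a then 1 else 0 := by
      intro a i c
      have h3 := hDk a (i, c)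
      split_ifs with hic
      · exact h3.1 (by rw [hic.1, hic.2])
      · refine h3.2 (fun h4 => hic ?_)
        exact ⟨(congrArg Prod.fst h4).symm, (congrArg Prod.snd h4).symm⟩
    have h5 := step3 (w := w) (P := PL) (d := e + 1) hm (fun h hh => lift hm (by
      have := hup k
      rwa [hm] at this) hh) Dk hDk' q f0 η f1
    have h6 : w k - 1 = m := by omega
    rw [h6]
    exact h5
  have f3 := step4 (w := w) (P := PL) (d := e + 1)
    (S := Finset.univ.filter (fun k => 0 < w k)) hsurj q f0 f2
  have hlw : low w (Finset.univ.filter (fun k => 0 < w k)) = fun i => w i - 1 := by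
    funext i
    unfold low
    by_cases hi : 0 < w i
    · rw [if_pos (Finset.mem_filter.2 ⟨Finset.mem_univ i, hi⟩)]
    · rw [if_neg]
      · omega
      · intro h
        exact hi (Finset.mem_filter.1 h).2
  rw [hlw] at f3
  obtain ⟨G, hG, hG'⟩ := bpf hlow q hq (fun i _ => hqP i)
  exact hG' (f3 G hG)

/-- **Main theorem**: smoothness of the general member from independence of the conditions of
three systems, for points with algebraically independent coordinates. -/
theorem main {K : Type} [Field K] [CharZero K] {n : ℕ} {w : Fin n → ℕ} {P : Fin n → Fin 2 → K}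
    {e M0 : ℕ} (hP : AlgebraicIndependent ℚ (fun ij : Fin n × Fin 2 => P ij.1 ij.2))
    (hdim : ∀ (L : Type) [Field L] [Algebra K L],
      Module.finrank L ↥(forms w (fun i a => algebraMap K L (P i a)) (e + 1)) = M0)
    (hsurj : ∀ (L : Type) [Field L] [Algebra K L],
      Function.Surjective (ev w (fun i a => algebraMap K L (P i a)) (e + 1)))
    (hup : ∀ (L : Type) [Field L] [Algebra K L], ∀ k, Function.Surjective
      (ev (Function.update w k (w k + 1)) (fun i a => algebraMap K L (P i a)) (e + 1)))
    (hlow : ∀ (L : Type) [Field L] [Algebra K L], Function.Surjective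
      (ev (fun i => w i - 1) (fun i a => algebraMap K L (P i a)) e)) :
    GeneralMember (forms w P (e + 1)) (SmoothMember w P) := by
  classical
  intro N b
  have hN : N = M0 := by
    have h1 := Module.finrank_eq_card_basis b
    rw [Fintype.card_fin] at h1
    rw [← h1]
    exact hdim K
  let hch : Fin 3 × (Fin n → Fin 2) → MvPolynomial (Fin 3) K := fun cα =>
    X cα.1 * ∏ i, (X (Fin.castSucc (cα.2 i)) - C (P i (cα.2 i)) * X 2)
  have hel := fun cα : Fin 3 × (Fin n → Fin 2) =>
    elim (fun j => (b j : MvPolynomial (Fin 3) K)) (hch cα) (by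
      intro L _ _ t D hD q h1 h2
      by_contra hne
      simp only [hch, map_mul, map_prod, map_sub, aeval_X, aeval_C] at hne
      have hne1 := left_ne_zero_of_mul hne
      have hne2 := fun i => Finset.prod_ne_zero_iff.1 (right_ne_zero_of_mul hne) i
        (Finset.mem_univ i)
      refine at_point (L := L) hP b ((hdim L).trans hN.symm) (hsurj L) (hup L) (hlow L) t D hD q
        (fun h => hne1 (by rw [h]; rfl)) (fun i => ?_) h1 h2
      rintro ⟨c, hc⟩
      apply hne2 i
      rw [hc]
      generalize cα.2 i = a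
      fin_cases a
      · simp
        ring
      · simp
        ring)
  choose Φ0 hΦ0 h0 using hel
  have hb := fun i => bertini (fun j => homogeneousComponent (w i)
    (tau (P i) (b j : MvPolynomial (Fin 3) K)))
  choose Φ hΦ hΦ' using hb
  refine ⟨(∏ cα, Φ0 cα) * ∏ i, Φ i, mul_ne_zero (Finset.prod_ne_zero_iff.2 fun i _ => hΦ0 i)
    (Finset.prod_ne_zero_iff.2 fun i _ => hΦ i), fun t ht => ?_⟩
  rw [map_mul, map_prod, map_prod] at ht
  have ht0 : ∀ cα, eval t (Φ0 cα) ≠ 0 := fun i =>
    Finset.prod_ne_zero_iff.1 (left_ne_zero_of_mul ht) i (Finset.mem_univ i)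
  have hti : ∀ i, eval t (Φ i) ≠ 0 := fun i =>
    Finset.prod_ne_zero_iff.1 (right_ne_zero_of_mul ht) i (Finset.mem_univ i)
  set G := ∑ j, t j • (b j : MvPolynomial (Fin 3) K) with hG
  have hGV : G ∈ forms w P (e + 1) := by
    rw [hG]
    exact Submodule.sum_mem _ fun j _ => Submodule.smul_mem _ _ (b j).2
  have hnotP : ∀ Q : Fin 3 → K, Q ≠ 0 → eval Q G = 0 → (∀ a, eval Q (pderiv a G) = 0) →
      ∃ i, ∃ c : K, Q = c • (![P i 0, P i 1, 1] : Fin 3 → K) := by
    intro Q hQ hQ1 hQ2
    by_contra hcon
    push Not at hcon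
    obtain ⟨c, hc⟩ : ∃ c, Q c ≠ 0 := by
      by_contra hcon2
      push Not at hcon2
      exact hQ (funext hcon2)
    have hα : ∀ i, ∃ a : Fin 2, Q (Fin.castSucc a) - P i a * Q 2 ≠ 0 := by
      intro i
      by_contra hcon2
      push Not at hcon2
      apply hcon i (Q 2)
      have e0 := hcon2 0
      have e1 := hcon2 1
      funext j
      fin_cases j
      · change Q 0 = Q 2 * P i 0
        have : Q (Fin.castSucc (0 : Fin 2)) = Q 0 := rfl
        rw [this] at e0
        linear_combination e0
      · change Q 1 = Q 2 * P i 1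
        have : Q (Fin.castSucc (1 : Fin 2)) = Q 1 := rfl
        rw [this] at e1
        linear_combination e1
      · change Q 2 = Q 2 * 1
        rw [mul_one]
    choose α hα using hα
    have h3 := h0 (c, α) t (ht0 (c, α)) Q hQ1 hQ2
    simp only [hch, map_mul, map_prod, map_sub, eval_X, eval_C] at h3
    rcases mul_eq_zero.1 h3 with h4 | h4
    · exact hc h4
    · obtain ⟨i, _, hi⟩ := Finset.prod_eq_zero_iff.1 h4
      exact hα i hi
  have hK := hup K
  have hlead : ∀ i, ∀ v : Fin 2 → K, v ≠ 0 →
      eval v (homogeneousComponent (w i) (tau (P i) G)) = 0 →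
      ∃ a, eval v (pderiv a (homogeneousComponent (w i) (tau (P i) G))) ≠ 0 := by
    intro i v hv hv1
    by_contra hcon
    push Not at hcon
    have hsum : homogeneousComponent (w i) (tau (P i) G) =
        ∑ j, t j • homogeneousComponent (w i) (tau (P i) (b j : MvPolynomial (Fin 3) K)) := by
      rw [hG, map_sum, map_sum]
      refine Finset.sum_congr rfl fun j _ => ?_
      rw [map_smul, map_smul]
    rw [hsum] at hv1 hcon
    have h3 := hΦ' i t (hti i) v hv1 hcon
    obtain ⟨a, ha⟩ : ∃ a, v a ≠ 0 := by
      by_contra hcon2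
      push Not at hcon2
      exact hv (funext hcon2)
    obtain ⟨H, hH, hH'⟩ := lift (L := K) (w := w) (P := P) (d := e + 1) (k := i) rfl (hK i)
      (h := X a ^ (w i)) (by
        have := (isHomogeneous_X K a).pow (w i)
        rwa [one_mul] at this)
    obtain ⟨c, hc⟩ := exists_comb b hH
    have h4 : eval v (homogeneousComponent (w i) (tau (P i) H)) = 0 := by
      rw [hc, map_sum, map_sum, map_sum]
      refine Finset.sum_eq_zero fun j _ => ?_
      rw [map_smul, map_smul, smul_eval, h3 j, mul_zero]
    rw [hH', map_pow, eval_X] at h4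
    exact pow_ne_zero _ ha h4
  refine ⟨fun Q hQ hQ1 hQ2 => ?_, fun i => ⟨?_, hlead i⟩⟩
  · obtain ⟨i, c, hc⟩ := hnotP Q hQ hQ1 hQ2
    refine ⟨i, Nat.pos_of_ne_zero fun hw0 => ?_, c, hc⟩
    -- a point of multiplicity zero is not on the curve
    have h5 := hlead i (fun _ => 1) (fun h => one_ne_zero (congrFun h 0))
    rw [hw0] at h5
    have h6 : homogeneousComponent 0 (tau (P i) G) = C (eval ![P i 0, P i 1, 1] G) := by
      rw [homogeneousComponent_zero]
      congr 1
      exact constCoeff_tau (P i) G
    rw [h6] at h5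
    have hc0 : c ≠ 0 := by
      rintro rfl
      rw [zero_smul] at hc
      exact hQ hc
    have h7 : eval (![P i 0, P i 1, 1] : Fin 3 → K) G = 0 := by
      have h9 : eval Q G = c ^ (e + 1) * eval (![P i 0, P i 1, 1] : Fin 3 → K) G := by
        rw [hc]
        have h10 := (mem_forms.1 hGV).1
        rw [eval_eq, eval_eq, Finset.mul_sum]
        refine Finset.sum_congr rfl fun s hs => ?_
        have h11 : s 0 + s 1 + s 2 = e + 1 :=
          H932R2.sum_eq_of_homog h10 (mem_support_iff.1 hs)
        simp only [Pi.smul_apply, smul_eq_mul, mul_pow, Finset.prod_mul_distrib]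
        have h12 : ∑ i ∈ s.support, s i = e + 1 := by
          rw [Finset.sum_subset (Finset.subset_univ s.support)
            (fun i _ hi => Finsupp.notMem_support_iff.1 hi), Fin.sum_univ_three, h11]
        rw [Finset.prod_pow_eq_pow_sum, h12]
        ring
      rw [hQ1] at h9
      exact (mul_eq_zero.1 h9.symm).resolve_left (pow_ne_zero _ hc0)
    rw [h7, C_0, map_zero] at h5
    obtain ⟨a, ha⟩ := h5 rfl
    exact ha (by simp)
  · exact (mem_pow_idealOfVars_iff' _ _).1 ((mem_forms.1 hGV).2 i)

end Pool.Agent.H248R6
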