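import Mathlib
import Pool.Agent.H15.G.R_seed8.H248R5.Smooth

set_option autoImplicit false

/-!
# Specialisation of the members of a linear system with generic base points
-/

namespace Pool.Agent.H248R6

open MvPolynomial Pool.Agent.H248R5

/-- The local equation over a commutative ring. -/
noncomputable def tauR {A : Type*} [CommRing A] (p : Fin 2 → A) :
    MvPolynomial (Fin 3) A →ₐ[A] MvPolynomial (Fin 2) A :=
  aeval ![X 0 + C (p 0), X 1 + C (p 1), 1]

theorem map_tauR {A K : Type*} [CommRing A] [Field K] (f : A →+* K) (p : Fin 2 → A)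
    (G : MvPolynomial (Fin 3) A) :
    MvPolynomial.map f (tauR p G) = tau (fun a => f (p a)) (MvPolynomial.map f G) := by
  induction G using MvPolynomial.induction_on with
  | C c =>
    have h1 : tauR p (C c) = C c := algHom_C _ _
    rw [h1, map_C, map_C, tau_C]
  | add G H hG hH => simp only [map_add, hG, hH]
  | mul_X G i hG =>
    rw [map_mul, map_mul, map_mul, map_mul, hG, map_X]
    congr 1
    fin_cases i
    · change MvPolynomial.map f (tauR p (X 0)) = tau (fun a => f (p a)) (X 0)
      have h1 : tauR p (X 0) = X 0 + C (p 0) := aeval_X _ _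
      rw [h1, tau_X0, map_add, map_X, map_C]
    · change MvPolynomial.map f (tauR p (X 1)) = tau (fun a => f (p a)) (X 1)
      have h1 : tauR p (X 1) = X 1 + C (p 1) := aeval_X _ _
      rw [h1, tau_X1, map_add, map_X, map_C]
    · change MvPolynomial.map f (tauR p (X 2)) = tau (fun a => f (p a)) (X 2)
      have h1 : tauR p (X 2) = 1 := aeval_X _ _
      rw [h1, tau_X2, map_one]

/-- Multiplicities of a form with coefficients in a domain specialise. -/
theorem spec_mem {A K0 K : Type*} [CommRing A] [Field K0] [Field K] {g : A →+* K0}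
    (hg : Function.Injective g) (f : A →+* K) {n : ℕ} {w : Fin n → ℕ} {x : Fin n → Fin 2 → A}
    {d : ℕ} {β : MvPolynomial (Fin 3) A}
    (h : MvPolynomial.map g β ∈ forms w (fun i a => g (x i a)) d) :
    MvPolynomial.map f β ∈ forms w (fun i a => f (x i a)) d := by
  obtain ⟨h1, h2⟩ := mem_forms.1 h
  have hβ : β.IsHomogeneous d := by
    intro s hs
    refine h1 ?_
    rw [coeff_map]
    exact fun h0 => hs (hg (h0.trans (map_zero g).symm))
  refine mem_forms.2 ⟨hβ.map _, fun i => ?_⟩
  rw [← map_tauR, mem_pow_idealOfVars_iff']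
  intro s hs
  have h3 := (mem_pow_idealOfVars_iff' _ _).1 (h2 i) s hs
  rw [← map_tauR, coeff_map] at h3
  have h4 : coeff s (tauR (x i) β) = 0 := hg (h3.trans (map_zero g).symm)
  rw [coeff_map, h4, map_zero]

/-- A nonzero minor. -/
theorem exists_minor {K : Type*} [Field K] {σ : Type*} {N : ℕ} (b : Fin N → MvPolynomial σ K)
    (hb : LinearIndependent K b) :
    ∃ s : Fin N → (σ →₀ ℕ), Matrix.det (Matrix.of fun i j => coeff (s i) (b j)) ≠ 0 := by
  classical
  let r : (σ →₀ ℕ) → (Fin N → K) := fun s j => coeff s (b j)
  have hspan : Submodule.span K (Set.range r) = ⊤ := by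
    by_contra hne
    obtain ⟨φ, hφ0, hφ⟩ := Submodule.exists_le_ker_of_lt_top _ (lt_top_iff_ne_top.2 hne)
    have h1 : ∀ v : Fin N → K, φ v = ∑ j, v j * φ (Pi.single j 1) := by
      intro v
      have h2 : v = ∑ j, v j • (Pi.single j (1 : K) : Fin N → K) := by
        funext i
        rw [Finset.sum_apply, Finset.sum_eq_single i]
        · simp
        · intro j _ hj
          simp [Pi.single_apply, hj.symm]
        · simp
      conv_lhs => rw [h2]
      rw [map_sum]
      exact Finset.sum_congr rfl fun j _ => by rw [map_smul, smul_eq_mul]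
    have h3 : ∑ j, φ (Pi.single j 1) • b j = 0 := by
      ext s
      rw [coeff_sum, coeff_zero]
      have h4 : φ (r s) = 0 := hφ (Submodule.subset_span ⟨s, rfl⟩)
      rw [h1] at h4
      rw [← h4]
      exact Finset.sum_congr rfl fun j _ => by
        rw [coeff_smul, smul_eq_mul, mul_comm]
    have h5 := Fintype.linearIndependent_iff.1 hb _ h3
    apply hφ0
    refine LinearMap.ext fun v => ?_
    rw [h1, LinearMap.zero_apply]
    exact Finset.sum_eq_zero fun j _ => by rw [h5 j, mul_zero]
  obtain ⟨t, ht1, ht2, ht3⟩ := exists_linearIndependent K (Set.range r)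
  rw [hspan] at ht2
  let B := Module.Basis.mk ht3 (by rw [Subtype.range_coe, ht2])
  have hfin : Finite t := Module.Finite.finite_basis B
  have hft : Fintype t := Fintype.ofFinite t
  have hcard : Fintype.card t = N := by
    rw [← Module.finrank_eq_card_basis B, Module.finrank_fin_fun]
  let e : Fin N ≃ t := (Fintype.equivFinOfCardEq hcard).symm
  choose s hs using fun i : Fin N => ht1 (e i).2
  refine ⟨s, ?_⟩
  have h6 : LinearIndependent K (fun i : Fin N => r (s i)) := by
    have h7 : (fun i : Fin N => r (s i)) = (fun x : t => (x : Fin N → K)) ∘ e := by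
      funext i
      exact hs i
    rw [h7]
    exact ht3.comp _ e.injective
  have h8 : LinearIndependent K (Matrix.of fun i j => coeff (s i) (b j)).row := h6
  have h9 := Matrix.linearIndependent_rows_iff_isUnit.1 h8
  rw [Matrix.isUnit_iff_isUnit_det] at h9
  exact h9.ne_zero

/-- A nonzero minor gives linear independence. -/
theorem li_of_minor {K : Type*} [Field K] {σ : Type*} {N : ℕ} (b : Fin N → MvPolynomial σ K)
    (s : Fin N → (σ →₀ ℕ)) (h : Matrix.det (Matrix.of fun i j => coeff (s i) (b j)) ≠ 0) :
    LinearIndependent K b := by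
  classical
  rw [Fintype.linearIndependent_iff]
  intro g hg
  have h1 : (Matrix.of fun i j => coeff (s i) (b j)).mulVec g = 0 := by
    funext i
    have h2 := congrArg (coeff (s i)) hg
    rw [coeff_sum, coeff_zero] at h2
    rw [Matrix.mulVec, dotProduct, Pi.zero_apply, ← h2]
    exact Finset.sum_congr rfl fun j _ => by
      rw [coeff_smul, smul_eq_mul, mul_comm, Matrix.of_apply]
  have h3 := Matrix.eq_zero_of_mulVec_eq_zero h h1
  exact fun i => congrFun h3 i

end Pool.Agent.H248R6
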