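import Mathlib
import Pool.Agent.H15.G.R_seed8.H932R3.Finals
import Pool.Agent.H15.G.R_seed8.H248R6.Main
import Pool.Agent.H15.G.R_seed8.H248R6.Dim

set_option autoImplicit false

/-!
# The general member for bounded multiplicities
-/

namespace Pool.Agent.H248R6

open MvPolynomial Pool.Agent.H248R5

theorem two_choose (k : ℕ) : 2 * (k + 1).choose 2 = (k + 1) * k := by
  have h := Nat.triangle_succ k
  rw [Nat.choose_two_right, Nat.add_sub_cancel]
  have h2 : 2 ∣ (k + 1) * k := by
    rw [mul_comm]
    exact (Nat.even_mul_succ_self k).two_dvd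
  exact Nat.mul_div_cancel' h2

theorem num {n M e : ℕ} (h : n * (M + 1).choose 2 + M + 1 ≤ (e + 3).choose 2) :
    n * M.choose 2 ≤ (e + 2).choose 2 := by
  rcases Nat.eq_zero_or_pos M with h0 | h0
  · subst h0
    simp
  obtain ⟨m, rfl⟩ : ∃ m, M = m + 1 := ⟨M - 1, by omega⟩
  have h1 := two_choose m
  have h2 := two_choose (m + 1)
  have h3 := two_choose (e + 1)
  have h4 := two_choose (e + 2)
  have e3 : e + 1 + 1 = e + 2 := rfl
  have e4 : e + 2 + 1 = e + 3 := rfl
  rw [e3] at h3
  rw [e4] at h4
  rcases Nat.le_total (e + 1) ((n + 1) * (m + 1)) with h5 | h5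
  · have h6 : 2 * (n * (m + 1 + 1).choose 2) = n * ((m + 1 + 1) * (m + 1)) := by
      rw [← h2]; ring
    have h7 : 2 * (n * (m + 1).choose 2) = n * ((m + 1) * m) := by
      rw [← h1]; ring
    nlinarith
  · have h7 : 2 * (n * (m + 1).choose 2) = n * ((m + 1) * m) := by
      rw [← h1]; ring
    have h8 : (n + 1) * (m + 1) * ((n + 1) * (m + 1)) ≤ (e + 2) * (e + 1) :=
      Nat.mul_le_mul (by omega) h5
    have h9 : n * ((m + 1) * m) ≤ (n + 1) * (m + 1) * ((n + 1) * (m + 1)) := by
      have : (n + 1) * (m + 1) * ((n + 1) * (m + 1)) =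
        ((n + 1) * (n + 1)) * ((m + 1) * (m + 1)) := by ring
      rw [this]
      refine Nat.mul_le_mul ?_ (Nat.mul_le_mul le_rfl (by omega))
      nlinarith
    omega

theorem sum_upd {n : ℕ} (M : ℕ) (k : Fin n) :
    ∑ i, (Function.update (fun _ : Fin n => M) k (M + 1) i + 1).choose 2 =
      n * (M + 1).choose 2 + M + 1 := by
  classical
  have h1 : ∀ i, (Function.update (fun _ : Fin n => M) k (M + 1) i + 1).choose 2 =
      (M + 1).choose 2 + if i = k then M + 1 else 0 := by
    intro i
    by_cases hi : i = k
    · subst hi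
      rw [Function.update_self, if_pos rfl]
      have := two_choose M
      have h2 := two_choose (M + 1)
      nlinarith
    · rw [Function.update_of_ne hi, if_neg hi, add_zero]
  rw [Finset.sum_congr rfl fun i _ => h1 i, Finset.sum_add_distrib, Finset.sum_ite_eq',
    if_pos (Finset.mem_univ k), Finset.sum_const, Finset.card_univ, Fintype.card_fin,
    smul_eq_mul, add_assoc]

theorem aeval_ne {L : Type} [Field L] [CharZero L] {n : ℕ} {P : Fin n → Fin 2 → L}
    (hP : AlgebraicIndependent ℚ (fun ij : Fin n × Fin 2 => P ij.1 ij.2))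
    {F : MvPolynomial (Fin n × Fin 2) ℚ} (hF : F ≠ 0) :
    aeval (fun ij : Fin n × Fin 2 => P ij.1 ij.2) F ≠ 0 := fun h =>
  hF ((injective_iff_map_eq_zero _).1 hP F h)

/-- The condition on the number of points and the bound for the multiplicities. -/
def Cond (n M : ℕ) : Prop :=
  ((M + 1 : ℕ) : ℝ) ≤ n - 6 * Real.sqrt n + 11 ∨
    ∃ δ κ : ℕ, 2 ≤ δ ∧ n = δ ^ 2 + 2 * κ ∧
      (κ = 0 ∨ n * (M * (M + 1)) + 2 * (M + 1) < δ ^ 2 * (δ ^ 2 + 3) * (δ ^ 2 + 4))

theorem surj_gen {n M : ℕ} (hn : 9 < n) (hM : 0 < M) (h : Cond n M) {L : Type} [Field L]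
    [CharZero L] {P : Fin n → Fin 2 → L}
    (hP : AlgebraicIndependent ℚ (fun ij : Fin n × Fin 2 => P ij.1 ij.2)) {e : ℕ}
    (he : n * (M + 1).choose 2 + M + 1 ≤ (e + 3).choose 2) :
    (∀ k, Function.Surjective (ev (Function.update (fun _ => M) k (M + 1)) P (e + 1))) ∧
      Function.Surjective (ev (fun _ => M - 1) P e) := by
  classical
  constructor
  · intro k
    set w := Function.update (fun _ : Fin n => M) k (M + 1) with hw
    have hw' : ∀ i, w i = M ∨ w i = M + 1 := by
      intro i
      by_cases hi : i = k
      · right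
        rw [hw, hi, Function.update_self]
      · left
        rw [hw, Function.update_of_ne hi]
    obtain ⟨F, hF, hF'⟩ := H932R3.near_points (L := L) (by omega) hM hw'
      (H932R3.near_cond hn hw' (by
        rcases h with h | ⟨δ, κ, h1, h2, h3⟩
        · exact Or.inl h
        · refine Or.inr ⟨δ, κ, h1, h2, ?_⟩
          rcases h3 with h3 | h3
          · exact Or.inl h3
          · right
            have h4 := H932R3.two_mul_sum w
            have h5 := sum_upd M k
            rw [← hw] at h5
            have h6 := two_choose M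
            rw [h5] at h4
            have h7 : 2 * (n * (M + 1).choose 2) = n * ((M + 1) * M) := by
              rw [← h6]; ring
            have h8 : n * (M * (M + 1)) = n * ((M + 1) * M) := by ring
            omega))
    have h1 := hF' P (aeval_ne hP hF) (e + 1)
    have h2 := sum_upd M k
    rw [← hw] at h2
    refine surj_of_ind ?_
    have h3 : Module.finrank L ↥(forms w P (e + 1)) =
      (e + 1 + 2).choose 2 - ∑ i, (w i + 1).choose 2 := h1
    have h4 : e + 1 + 2 = e + 3 := rfl
    rw [h4] at h3 ⊢
    omega
  · have hs : ∑ i : Fin n, (M - 1 + 1).choose 2 = n * M.choose 2 := by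
      rw [Finset.sum_const, Finset.card_univ, Fintype.card_fin, smul_eq_mul,
        Nat.sub_add_cancel hM]
    have hnum := num he
    refine surj_of_ind ?_
    rw [hs]
    rcases Nat.lt_or_ge 1 M with h1 | h1
    · have hw' : ∀ i : Fin n, (fun _ : Fin n => M - 1) i = M - 1 ∨
        (fun _ : Fin n => M - 1) i = M - 1 + 1 := fun i => Or.inl rfl
      obtain ⟨F, hF, hF'⟩ := H932R3.near_points (L := L) (by omega) (by omega) hw'
        (H932R3.near_cond hn hw' (by
          rcases h with h | ⟨δ, κ, h1, h2, h3⟩
          · left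
            refine le_trans ?_ h
            exact_mod_cast (by omega : M - 1 + 1 ≤ M + 1)
          · refine Or.inr ⟨δ, κ, h1, h2, ?_⟩
            rcases h3 with h3 | h3
            · exact Or.inl h3
            · right
              refine lt_of_le_of_lt ?_ h3
              rw [Finset.sum_const, Finset.card_univ, Fintype.card_fin, smul_eq_mul]
              have : (M - 1) * (M - 1 + 1) ≤ M * (M + 1) :=
                Nat.mul_le_mul (by omega) (by omega)
              exact (Nat.mul_le_mul_left n this).trans (Nat.le_add_right _ _)))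
      have h2 : Module.finrank L ↥(forms (fun _ : Fin n => M - 1) P e) =
        (e + 2).choose 2 - ∑ i : Fin n, (M - 1 + 1).choose 2 := hF' P (aeval_ne hP hF) e
      rw [hs] at h2
      omega
    · have hM1 : M = 1 := by omega
      subst hM1
      have hfin : Module.Finite L ↥(homogeneousSubmodule (Fin 3) L e) :=
        Module.Finite.iff_fg.2 (homogeneousSubmodule_fg _ _ e)
      have h2 : Module.finrank L ↥(forms (fun _ : Fin n => 1 - 1) P e) ≤ (e + 2).choose 2 := by
        rw [← finrank_homog (K := L) e]
        exact Submodule.finrank_mono inf_le_left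
      have h3 : n * Nat.choose 1 2 = 0 := by
        rw [Nat.choose_eq_zero_of_lt (by norm_num), mul_zero]
      omega

/-- From the uniform case to all multiplicities below the bound. -/
theorem bounded {K : Type} [Field K] [CharZero K] {n M e : ℕ} {P : Fin n → Fin 2 → K}
    (hP : AlgebraicIndependent ℚ (fun ij : Fin n × Fin 2 => P ij.1 ij.2))
    (hs : ∀ (L : Type) [Field L] [Algebra K L],
      (∀ k, Function.Surjective (ev (Function.update (fun _ => M) k (M + 1))
        (fun i a => algebraMap K L (P i a)) (e + 1))) ∧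
      Function.Surjective (ev (fun _ => M - 1) (fun i a => algebraMap K L (P i a)) e))
    (hn : 0 < n) {w : Fin n → ℕ} (hw : ∀ i, w i ≤ M) :
    Module.finrank K ↥(forms w P (e + 1)) + ∑ i, (w i + 1).choose 2 = (e + 3).choose 2 ∧
      GeneralMember (forms w P (e + 1)) (SmoothMember w P) := by
  classical
  have hup : ∀ (L : Type) [Field L] [Algebra K L], ∀ k, Function.Surjective
      (ev (Function.update w k (w k + 1)) (fun i a => algebraMap K L (P i a)) (e + 1)) := by
    intro L _ _ k
    refine surj_mono (fun i => ?_) ((hs L).1 k)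
    by_cases hi : i = k
    · subst hi
      rw [Function.update_self, Function.update_self]
      have := hw i
      omega
    · rw [Function.update_of_ne hi, Function.update_of_ne hi]
      exact hw i
  have hsurj : ∀ (L : Type) [Field L] [Algebra K L],
      Function.Surjective (ev w (fun i a => algebraMap K L (P i a)) (e + 1)) := by
    intro L _ _
    refine surj_mono (fun i => ?_) (hup L ⟨0, hn⟩)
    by_cases hi : i = ⟨0, hn⟩
    · subst hi
      rw [Function.update_self]
      omega
    · rw [Function.update_of_ne hi]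
  have hlow : ∀ (L : Type) [Field L] [Algebra K L], Function.Surjective
      (ev (fun i => w i - 1) (fun i a => algebraMap K L (P i a)) e) := by
    intro L _ _
    refine surj_mono (fun i => ?_) (hs L).2
    have := hw i
    omega
  have hfr : ∀ (L : Type) [Field L] [Algebra K L],
      Module.finrank L ↥(forms w (fun i a => algebraMap K L (P i a)) (e + 1)) =
        (e + 3).choose 2 - ∑ i, (w i + 1).choose 2 := by
    intro L _ _
    have h1 := finrank_of_surj (hsurj L)
    have h2 : e + 1 + 2 = e + 3 := rfl
    rw [h2] at h1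
    omega
  exact ⟨finrank_of_surj (hsurj K), main hP hfr hsurj hup hlow⟩

theorem bounded_gen {K : Type} [Field K] [CharZero K] {n M e : ℕ} (hn : 9 < n) (hM : 0 < M)
    (h : Cond n M) {P : Fin n → Fin 2 → K}
    (hP : AlgebraicIndependent ℚ (fun ij : Fin n × Fin 2 => P ij.1 ij.2))
    (he : n * (M + 1).choose 2 + M + 1 ≤ (e + 3).choose 2) {w : Fin n → ℕ} (hw : ∀ i, w i ≤ M) :
    Module.finrank K ↥(forms w P (e + 1)) + ∑ i, (w i + 1).choose 2 = (e + 3).choose 2 ∧
      GeneralMember (forms w P (e + 1)) (SmoothMember w P) := by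
  refine bounded hP (fun L _ _ => ?_) (by omega) hw
  have hchar : CharZero L := charZero_of_injective_algebraMap (algebraMap K L).injective
  have hPL : AlgebraicIndependent ℚ
      (fun ij : Fin n × Fin 2 => (fun i a => algebraMap K L (P i a)) ij.1 ij.2) :=
    hP.map' (f := (algebraMap K L).toRatAlgHom) (algebraMap K L).injective
  exact surj_gen (P := fun i a => algebraMap K L (P i a)) hn hM h hPL he

end Pool.Agent.H248R6
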