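import Mathlib
import Pool.Agent.H15.G.R_seed8.H248R6.Uni

set_option autoImplicit false

/-!
# The general member for equal multiplicities outside a window of degrees
-/

namespace Pool.Agent.H248R6

open MvPolynomial Pool.Agent.H248R5

theorem bounded_of {K : Type} [Field K] [CharZero K] {n M e : ℕ} {P : Fin n → Fin 2 → K}
    (hP : AlgebraicIndependent ℚ (fun ij : Fin n × Fin 2 => P ij.1 ij.2))
    (hs : ∀ (L : Type) [Field L] [CharZero L] (P : Fin n → Fin 2 → L),
      AlgebraicIndependent ℚ (fun ij : Fin n × Fin 2 => P ij.1 ij.2) →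
      (∀ k, Function.Surjective (ev (Function.update (fun _ => M) k (M + 1)) P (e + 1))) ∧
      Function.Surjective (ev (fun _ => M - 1) P e))
    (hn : 0 < n) {w : Fin n → ℕ} (hw : ∀ i, w i ≤ M) :
    Module.finrank K ↥(forms w P (e + 1)) + ∑ i, (w i + 1).choose 2 = (e + 3).choose 2 ∧
      GeneralMember (forms w P (e + 1)) (SmoothMember w P) := by
  refine bounded hP (fun L _ _ => ?_) hn hw
  have hchar : CharZero L := charZero_of_injective_algebraMap (algebraMap K L).injective
  have hPL : AlgebraicIndependent ℚ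
      (fun ij : Fin n × Fin 2 => (fun i a => algebraMap K L (P i a)) ij.1 ij.2) :=
    hP.map' (f := (algebraMap K L).toRatAlgHom) (algebraMap K L).injective
  exact hs L (fun i a => algebraMap K L (P i a)) hPL

/-- Nonspeciality of near-uniform systems outside a window, for all multiplicities up to `X`. -/
def WinHyp (n : ℕ) (X ε : ℝ) : Prop :=
  ∀ (L : Type) [Field L] [CharZero L], ∀ m : ℕ, 0 < m → (m : ℝ) ≤ X →
    ∀ w : Fin n → ℕ, (∀ i, w i = m ∨ w i = m + 1) →
    ∃ F : MvPolynomial (Fin n × Fin 2) ℚ, F ≠ 0 ∧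
      ∀ P : Fin n → Fin 2 → L,
        MvPolynomial.aeval (fun ij : Fin n × Fin 2 => P ij.1 ij.2) F ≠ 0 →
        ∀ d : ℕ, ε ≤ |2 * (d : ℝ) + 3 - Real.sqrt n - 2 * (∑ a, (w a : ℝ)) / Real.sqrt n| →
          H932R3.ExpDim L w P d

theorem surj_win {n M : ℕ} {X ε : ℝ} (hN : WinHyp n X (ε / 2)) (hε : 0 < ε)
    (hn2 : 4 / ε ≤ Real.sqrt n) (hn3 : 2 + ε / 2 ≤ Real.sqrt n) (hM : 0 < M) (hMk : (M : ℝ) ≤ X)
    {L : Type} [Field L] [CharZero L] {P : Fin n → Fin 2 → L}
    (hP : AlgebraicIndependent ℚ (fun ij : Fin n × Fin 2 => P ij.1 ij.2)) {e : ℕ}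
    (hx : ε ≤ |2 * ((e + 1 : ℕ) : ℝ) + 3 - Real.sqrt n * (2 * M + 1)|)
    (he : n * (M + 1).choose 2 + M + 1 ≤ (e + 3).choose 2) :
    (∀ k, Function.Surjective (ev (Function.update (fun _ => M) k (M + 1)) P (e + 1))) ∧
      Function.Surjective (ev (fun _ => M - 1) P e) := by
  classical
  have hs : Real.sqrt n * Real.sqrt n = n := Real.mul_self_sqrt (Nat.cast_nonneg n)
  have hs0 : 0 < Real.sqrt n := by linarith
  constructor
  · intro j
    set w := Function.update (fun _ : Fin n => M) j (M + 1) with hw
    have hw' : ∀ i, w i = M ∨ w i = M + 1 := by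
      intro i
      by_cases hi : i = j
      · right
        rw [hw, hi, Function.update_self]
      · left
        rw [hw, Function.update_of_ne hi]
    have hsum : ∑ a, (w a : ℝ) = n * M + 1 := by
      have h1 : ∀ a, (w a : ℝ) = M + if a = j then 1 else 0 := by
        intro a
        by_cases ha : a = j
        · rw [hw, ha, Function.update_self, if_pos rfl]
          push_cast
          ring
        · rw [hw, Function.update_of_ne ha, if_neg ha, add_zero]
      rw [Finset.sum_congr rfl fun a _ => h1 a, Finset.sum_add_distrib, Finset.sum_ite_eq',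
        if_pos (Finset.mem_univ j), Finset.sum_const, Finset.card_univ, Fintype.card_fin,
        nsmul_eq_mul]
    obtain ⟨F, hF, hF'⟩ := hN L M hM hMk w hw'
    have h1 := hF' P (aeval_ne hP hF) (e + 1) (by
      rw [hsum]
      have h2 : 2 * ((n : ℝ) * M + 1) / Real.sqrt n = 2 * Real.sqrt n * M + 2 / Real.sqrt n := by
        rw [div_eq_iff hs0.ne', add_mul, div_mul_cancel₀ _ hs0.ne']
        linear_combination (-(2 * (M : ℝ))) * hs
      rw [h2]
      have h3 : 2 / Real.sqrt n ≤ ε / 2 := by
        rw [div_le_iff₀ hs0]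
        rw [div_le_iff₀ hε] at hn2
        linarith
      have h4 : 0 < 2 / Real.sqrt n := by positivity
      have h5 : 2 * ((e + 1 : ℕ) : ℝ) + 3 - Real.sqrt n -
          (2 * Real.sqrt n * M + 2 / Real.sqrt n) =
          (2 * ((e + 1 : ℕ) : ℝ) + 3 - Real.sqrt n * (2 * M + 1)) - 2 / Real.sqrt n := by ring
      rw [h5]
      have h6 := abs_sub_abs_le_abs_sub
        (2 * ((e + 1 : ℕ) : ℝ) + 3 - Real.sqrt n * (2 * M + 1)) (2 / Real.sqrt n)
      rw [abs_of_pos h4] at h6
      linarith)
    have h2 := sum_upd M j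
    rw [← hw] at h2
    refine surj_of_ind ?_
    have h3 : Module.finrank L ↥(forms w P (e + 1)) =
      (e + 1 + 2).choose 2 - ∑ i, (w i + 1).choose 2 := h1
    have h4 : e + 1 + 2 = e + 3 := rfl
    rw [h4] at h3 ⊢
    omega
  · have hsc : ∑ i : Fin n, (M - 1 + 1).choose 2 = n * M.choose 2 := by
      rw [Finset.sum_const, Finset.card_univ, Fintype.card_fin, smul_eq_mul,
        Nat.sub_add_cancel hM]
    have hnum := num he
    refine surj_of_ind ?_
    rw [hsc]
    rcases Nat.lt_or_ge 1 M with h1 | h1
    · obtain ⟨F, hF, hF'⟩ := hN L (M - 1) (by omega)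
        (le_trans (by exact_mod_cast Nat.sub_le M 1) hMk) (fun _ : Fin n => M - 1)
        (fun i => Or.inl rfl)
      have h2 : Module.finrank L ↥(forms (fun _ : Fin n => M - 1) P e) =
        (e + 2).choose 2 - ∑ i : Fin n, (M - 1 + 1).choose 2 := hF' P (aeval_ne hP hF) e (by
          rw [Finset.sum_const, Finset.card_univ, Fintype.card_fin, nsmul_eq_mul,
            Nat.cast_sub hM, Nat.cast_one]
          have h2 : 2 * ((n : ℝ) * ((M : ℝ) - 1)) / Real.sqrt n =
              2 * Real.sqrt n * (M - 1) := by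
            rw [div_eq_iff hs0.ne']
            linear_combination (-(2 * ((M : ℝ) - 1))) * hs
          rw [h2]
          have h3 : 2 * Real.sqrt n * M < 2 * (e : ℝ) + 5 := by
            have e1 := two_choose M
            have e2 := two_choose (e + 2)
            have e3 : e + 2 + 1 = e + 3 := rfl
            rw [e3] at e2
            have e4 : 2 * (n * (M + 1).choose 2) = n * ((M + 1) * M) := by
              rw [← e1]
              ring
            have e5 : n * ((M + 1) * M) ≤ (e + 3) * (e + 2) := by omega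
            have e6 : (n : ℝ) * ((M + 1) * M) ≤ (e + 3) * (e + 2) := by exact_mod_cast e5
            refine lt_of_pow_lt_pow_left₀ 2 (by positivity) ?_
            have e7 : (2 * Real.sqrt n * M) ^ 2 = 4 * (n : ℝ) * M ^ 2 := by
              linear_combination (4 * (M : ℝ) ^ 2) * hs
            rw [e7]
            have e8 : (0 : ℝ) ≤ n * M := by positivity
            nlinarith
          refine le_trans ?_ (le_abs_self _)
          linarith)
      rw [hsc] at h2
      omega
    · have hM1 : M = 1 := by omega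
      subst hM1
      have h2 : Module.finrank L ↥(forms (fun _ : Fin n => 1 - 1) P e) ≤ (e + 2).choose 2 := by
        have hfin : Module.Finite L ↥(homogeneousSubmodule (Fin 3) L e) :=
          Module.Finite.iff_fg.2 (homogeneousSubmodule_fg _ _ e)
        rw [← finrank_homog (K := L) e]
        exact Submodule.finrank_mono inf_le_left
      have h3 : n * Nat.choose 1 2 = 0 := by
        rw [Nat.choose_eq_zero_of_lt (by norm_num), mul_zero]
      omega

end Pool.Agent.H248R6
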