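import Mathlib
import Pool.Agent.H15.G.R_seed8.H248R6.All

set_option autoImplicit false

/-!
# The two ranges of multiplicities, for points outside one hypersurface
-/

namespace Pool.Agent.H248R6

open MvPolynomial Pool.Agent.H248R5

theorem upd_near {n : ℕ} (M : ℕ) (k : Fin n) (i : Fin n) :
    Function.update (fun _ : Fin n => M) k (M + 1) i = M ∨
      Function.update (fun _ : Fin n => M) k (M + 1) i = M + 1 := by
  by_cases hi : i = k
  · right
    rw [hi, Function.update_self]
  · left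
    rw [Function.update_of_ne hi]

theorem large {n M d : ℕ} (hn : 0 < n) (hd : n * (M + 1) ≤ d) :
    n * (M + 1).choose 2 ≤ (d + 2).choose 2 := by
  have e1 := two_choose M
  have e2 := two_choose (d + 1)
  have e3 : d + 1 + 1 = d + 2 := rfl
  rw [e3] at e2
  have e4 : 2 * (n * (M + 1).choose 2) = n * ((M + 1) * M) := by
    rw [← e1]
    ring
  have e5 : n * (M + 1) * M ≤ (d + 2) * (d + 1) := by
    refine Nat.mul_le_mul (by omega) ?_
    have : 1 * (M + 1) ≤ n * (M + 1) := Nat.mul_le_mul hn le_rfl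
    omega
  have e6 : n * (M + 1) * M = n * ((M + 1) * M) := by ring
  omega

theorem surj_upd_of {K : Type} [Field K] {n M : ℕ} {P : Fin n → Fin 2 → K} {e : ℕ} {k : Fin n}
    (h : H932R3.ExpDim K (Function.update (fun _ => M) k (M + 1)) P (e + 1))
    (he : n * (M + 1).choose 2 + M + 1 ≤ (e + 3).choose 2) :
    Function.Surjective (ev (Function.update (fun _ => M) k (M + 1)) P (e + 1)) := by
  refine surj_of_ind ?_
  have h2 := sum_upd M k
  have h3 : Module.finrank K ↥(forms (Function.update (fun _ => M) k (M + 1)) P (e + 1)) =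
    (e + 1 + 2).choose 2 -
      ∑ i, (Function.update (fun _ : Fin n => M) k (M + 1) i + 1).choose 2 := h
  have h4 : e + 1 + 2 = e + 3 := rfl
  rw [h4] at h3 ⊢
  omega

theorem surj_const_of {K : Type} [Field K] {n M : ℕ} {P : Fin n → Fin 2 → K} {d : ℕ}
    (h : H932R3.ExpDim K (fun _ => M) P d) (he : n * (M + 1).choose 2 ≤ (d + 2).choose 2) :
    Function.Surjective (ev (fun _ => M) P d) := by
  refine surj_of_ind ?_
  have hs : ∑ _i : Fin n, (M + 1).choose 2 = n * (M + 1).choose 2 := by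
    rw [Finset.sum_const, Finset.card_univ, Fintype.card_fin, smul_eq_mul]
  have h3 : Module.finrank K ↥(forms (fun _ => M) P d) =
    (d + 2).choose 2 - ∑ _i : Fin n, (M + 1).choose 2 := h
  rw [hs] at h3 ⊢
  omega

theorem near_all {K : Type} [Field K] [CharZero K] {n M : ℕ} (hn : 9 < n) (hM : 0 < M)
    (h : Cond n M) :
    ∃ F : MvPolynomial (Fin n × Fin 2) ℚ, F ≠ 0 ∧ ∀ P : Fin n → Fin 2 → K,
      aeval (fun ij : Fin n × Fin 2 => P ij.1 ij.2) F ≠ 0 →
      (∀ d, Module.finrank K ↥(forms (fun _ => M) P d) =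
        (d + 2).choose 2 - n * (M + 1).choose 2) ∧
      ∀ w : Fin n → ℕ, (∀ i, w i ≤ M) → ∀ d, n * (M + 1).choose 2 + M < (d + 2).choose 2 →
        Module.finrank K ↥(forms w P d) + ∑ i, (w i + 1).choose 2 = (d + 2).choose 2 ∧
          GeneralMember (forms w P d) (SmoothMember w P) := by
  classical
  have hk : ∀ k : Fin n, ∃ F : MvPolynomial (Fin n × Fin 2) ℚ, F ≠ 0 ∧
      ∀ P : Fin n → Fin 2 → K, aeval (fun ij : Fin n × Fin 2 => P ij.1 ij.2) F ≠ 0 →
        ∀ d, H932R3.ExpDim K (Function.update (fun _ => M) k (M + 1)) P d := by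
    intro k
    refine H932R3.near_points (L := K) (by omega) hM (upd_near M k)
      (H932R3.near_cond hn (upd_near M k) ?_)
    rcases h with h | ⟨δ, κ, h1, h2, h3⟩
    · exact Or.inl h
    · refine Or.inr ⟨δ, κ, h1, h2, ?_⟩
      rcases h3 with h3 | h3
      · exact Or.inl h3
      · right
        have h4 := H932R3.two_mul_sum (Function.update (fun _ : Fin n => M) k (M + 1))
        have h5 := sum_upd M k
        have h6 := two_choose M
        rw [h5] at h4
        have h7 : 2 * (n * (M + 1).choose 2) = n * ((M + 1) * M) := by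
          rw [← h6]; ring
        have h8 : n * (M * (M + 1)) = n * ((M + 1) * M) := by ring
        omega
  choose G hG hG' using hk
  have hw' : ∀ i : Fin n, (fun _ : Fin n => M) i = M ∨
    (fun _ : Fin n => M) i = M + 1 := fun i => Or.inl rfl
  obtain ⟨F3, hF3, hF3'⟩ := H932R3.near_points (L := K) (by omega) hM hw'
    (H932R3.near_cond hn hw' (by
      rcases h with h | ⟨δ, κ, h1, h2, h3⟩
      · exact Or.inl h
      · refine Or.inr ⟨δ, κ, h1, h2, ?_⟩
        rcases h3 with h3 | h3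
        · exact Or.inl h3
        · right
          refine lt_of_le_of_lt ?_ h3
          rw [Finset.sum_const, Finset.card_univ, Fintype.card_fin, smul_eq_mul]
          exact Nat.le_add_right _ _))
  obtain ⟨F, hF, hF'⟩ := open_all (K := K) (n := n) (M := M) (by omega)
    (fun d => n * (M + 1).choose 2 + M + 1 ≤ (d + 2).choose 2) (n * (M + 1))
    (fun e he L _ _ P hP => surj_gen hn hM h hP he)
    ⟨∏ k, G k, Finset.prod_ne_zero_iff.2 fun k _ => hG k, fun P hP e he k => by
      rw [map_prod] at hP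
      exact surj_upd_of (hG' k P (Finset.prod_ne_zero_iff.1 hP k (Finset.mem_univ k)) (e + 1)) he⟩
    ⟨F3, hF3, fun P hP d hd => surj_const_of (hF3' P hP d) (large (by omega) hd)⟩
  refine ⟨F * F3, mul_ne_zero hF hF3, fun P hP => ?_⟩
  rw [map_mul] at hP
  refine ⟨fun d => ?_, fun w hw d hd => ?_⟩
  · have h2 : Module.finrank K ↥(forms (fun _ : Fin n => M) P d) =
      (d + 2).choose 2 - ∑ i : Fin n, (M + 1).choose 2 := hF3' P (right_ne_zero_of_mul hP) d
    rw [h2, Finset.sum_const, Finset.card_univ, Fintype.card_fin, smul_eq_mul]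
  · obtain ⟨e, rfl⟩ : ∃ e, d = e + 1 := by
      refine ⟨d - 1, ?_⟩
      rcases Nat.eq_zero_or_pos d with h0 | h0
      · exfalso
        subst h0
        have : (0 + 2).choose 2 = 1 := rfl
        omega
      · omega
    exact hF' P (left_ne_zero_of_mul hP) w hw e (Or.inl hd)

theorem win_all {K : Type} [Field K] [CharZero K] {n M : ℕ} {X ε : ℝ}
    (hN : WinHyp n X (ε / 2)) (hε : 0 < ε) (hn : 0 < n)
    (hn2 : 4 / ε ≤ Real.sqrt n) (hn3 : 2 + ε / 2 ≤ Real.sqrt n) (hM : 0 < M)
    (hMk : (M : ℝ) ≤ X) :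
    ∃ F : MvPolynomial (Fin n × Fin 2) ℚ, F ≠ 0 ∧ ∀ P : Fin n → Fin 2 → K,
      aeval (fun ij : Fin n × Fin 2 => P ij.1 ij.2) F ≠ 0 →
      ∀ d : ℕ, ε ≤ |2 * (d : ℝ) + 3 - Real.sqrt n * (2 * M + 1)| →
        Module.finrank K ↥(forms (fun _ => M) P d) =
          (d + 2).choose 2 - n * (M + 1).choose 2 ∧
        (n * (M + 1).choose 2 + M < (d + 2).choose 2 → ∀ w : Fin n → ℕ, (∀ i, w i ≤ M) →
          Module.finrank K ↥(forms w P d) + ∑ i, (w i + 1).choose 2 = (d + 2).choose 2 ∧
            GeneralMember (forms w P d) (SmoothMember w P)) := by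
  classical
  have hs : Real.sqrt n * Real.sqrt n = n := Real.mul_self_sqrt (Nat.cast_nonneg n)
  have hs0 : 0 < Real.sqrt n := by linarith
  have hk : ∀ k : Fin n, ∃ F : MvPolynomial (Fin n × Fin 2) ℚ, F ≠ 0 ∧
      ∀ P : Fin n → Fin 2 → K, aeval (fun ij : Fin n × Fin 2 => P ij.1 ij.2) F ≠ 0 →
        ∀ d : ℕ, ε ≤ |2 * (d : ℝ) + 3 - Real.sqrt n * (2 * M + 1)| →
          H932R3.ExpDim K (Function.update (fun _ => M) k (M + 1)) P d := by
    intro j
    obtain ⟨F, hF, hF'⟩ := hN K M hM hMk (Function.update (fun _ => M) j (M + 1)) (upd_near M j)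
    refine ⟨F, hF, fun P hP d hx => hF' P hP d ?_⟩
    have hsum : ∑ a, ((Function.update (fun _ : Fin n => M) j (M + 1) a : ℕ) : ℝ) =
        n * M + 1 := by
      have h1 : ∀ a, ((Function.update (fun _ : Fin n => M) j (M + 1) a : ℕ) : ℝ) =
          M + if a = j then 1 else 0 := by
        intro a
        by_cases ha : a = j
        · rw [ha, Function.update_self, if_pos rfl]
          push_cast
          ring
        · rw [Function.update_of_ne ha, if_neg ha, add_zero]
      rw [Finset.sum_congr rfl fun a _ => h1 a, Finset.sum_add_distrib, Finset.sum_ite_eq',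
        if_pos (Finset.mem_univ j), Finset.sum_const, Finset.card_univ, Fintype.card_fin,
        nsmul_eq_mul]
    rw [hsum]
    have h2 : 2 * ((n : ℝ) * M + 1) / Real.sqrt n = 2 * Real.sqrt n * M + 2 / Real.sqrt n := by
      rw [div_eq_iff hs0.ne', add_mul, div_mul_cancel₀ _ hs0.ne']
      linear_combination (-(2 * (M : ℝ))) * hs
    rw [h2]
    have h3 : 2 / Real.sqrt n ≤ ε / 2 := by
      rw [div_le_iff₀ hs0]
      rw [div_le_iff₀ hε] at hn2
      linarith
    have h4 : 0 < 2 / Real.sqrt n := by positivity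
    have h5 : 2 * (d : ℝ) + 3 - Real.sqrt n - (2 * Real.sqrt n * M + 2 / Real.sqrt n) =
        (2 * (d : ℝ) + 3 - Real.sqrt n * (2 * M + 1)) - 2 / Real.sqrt n := by ring
    rw [h5]
    have h6 := abs_sub_abs_le_abs_sub
      (2 * (d : ℝ) + 3 - Real.sqrt n * (2 * M + 1)) (2 / Real.sqrt n)
    rw [abs_of_pos h4] at h6
    linarith
  choose G hG hG' using hk
  obtain ⟨F3, hF3, hF3''⟩ := hN K M hM hMk (fun _ => M) (fun i => Or.inl rfl)
  have hF3' : ∀ P : Fin n → Fin 2 → K,
      aeval (fun ij : Fin n × Fin 2 => P ij.1 ij.2) F3 ≠ 0 → ∀ d : ℕ,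
      ε ≤ |2 * (d : ℝ) + 3 - Real.sqrt n * (2 * M + 1)| →
      H932R3.ExpDim K (fun _ => M) P d := by
    intro P hP d hx
    refine hF3'' P hP d ?_
    rw [Finset.sum_const, Finset.card_univ, Fintype.card_fin, nsmul_eq_mul]
    have h3 : 2 * ((n : ℝ) * M) / Real.sqrt n = 2 * Real.sqrt n * M := by
      rw [div_eq_iff hs0.ne']
      linear_combination (-(2 * (M : ℝ))) * hs
    rw [h3]
    have h5 : 2 * (d : ℝ) + 3 - Real.sqrt n - 2 * Real.sqrt n * M =
      2 * (d : ℝ) + 3 - Real.sqrt n * (2 * M + 1) := by ring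
    rw [h5]
    linarith
  obtain ⟨F, hF, hF'⟩ := open_all (K := K) (n := n) (M := M) hn
    (fun d => n * (M + 1).choose 2 + M + 1 ≤ (d + 2).choose 2 ∧
      ε ≤ |2 * (d : ℝ) + 3 - Real.sqrt n * (2 * M + 1)|) (n * (M + 1) + ⌈ε⌉₊)
    (fun e he L _ _ P hP => surj_win hN hε hn2 hn3 hM hMk hP he.2 he.1)
    ⟨∏ k, G k, Finset.prod_ne_zero_iff.2 fun k _ => hG k, fun P hP e he k => by
      rw [map_prod] at hP
      exact surj_upd_of (hG' k P (Finset.prod_ne_zero_iff.1 hP k (Finset.mem_univ k))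
        (e + 1) he.2) he.1⟩
    ⟨F3, hF3, fun P hP d hd => surj_const_of (hF3' P hP d (by
      refine le_trans ?_ (le_abs_self _)
      have h1 : (n : ℝ) * (M + 1) + ε ≤ d := by
        have h2 : ((n * (M + 1) + ⌈ε⌉₊ : ℕ) : ℝ) ≤ d := by exact_mod_cast hd
        push_cast at h2
        have h3 := Nat.le_ceil ε
        linarith
      have h4 : Real.sqrt n ≤ n := by
        have h5 : (1 : ℝ) ≤ Real.sqrt n := by linarith
        nlinarith
      have h6 : Real.sqrt n * (2 * M + 1) ≤ n * (2 * M + 1) :=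
        mul_le_mul_of_nonneg_right h4 (by positivity)
      have h7 : (0 : ℝ) ≤ n := Nat.cast_nonneg n
      nlinarith)) (large hn (by omega))⟩
  refine ⟨F * F3, mul_ne_zero hF hF3, fun P hP d hx => ?_⟩
  rw [map_mul] at hP
  refine ⟨?_, fun hd w hw => ?_⟩
  · have h2 : Module.finrank K ↥(forms (fun _ : Fin n => M) P d) =
      (d + 2).choose 2 - ∑ i : Fin n, (M + 1).choose 2 := hF3' P (right_ne_zero_of_mul hP) d hx
    rw [h2, Finset.sum_const, Finset.card_univ, Fintype.card_fin, smul_eq_mul]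
  · obtain ⟨e, rfl⟩ : ∃ e, d = e + 1 := by
      refine ⟨d - 1, ?_⟩
      rcases Nat.eq_zero_or_pos d with h0 | h0
      · exfalso
        subst h0
        have : (0 + 2).choose 2 = 1 := rfl
        omega
      · omega
    exact hF' P (left_ne_zero_of_mul hP) w hw e (Or.inl ⟨hd, hx⟩)

end Pool.Agent.H248R6
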